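import Mathlib

namespace Pool.Agent.Results.MP_165839_co.EtaNonneg

open Finset SimpleGraph

variable {V : Type} [Fintype V] [DecidableEq V] (G : SimpleGraph V) [DecidableRel G.Adj]

/-- The vertex set of the unit sphere of `x` inside the subgraph induced on `A`. -/
def sph (A : Finset V) (x : V) : Finset V := A.filter (fun y => G.Adj x y)

/-- The subgraph of `G` induced on the given vertex set is collapsible. -/
inductive Coll : Finset V → Prop
  | single (x : V) : Coll {x}
  | step (A : Finset V) (x : V) : x ∈ A → Coll (A.erase x) → Coll (sph G A x) → Coll A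

/-- `IsSphere G n A`: the subgraph induced on `A` is an `(n-1)`-sphere. -/
def IsSphere : ℕ → Finset V → Prop
  | 0, A => A = ∅
  | n + 1, A => (∀ x ∈ A, IsSphere n (sph G A x)) ∧ ∃ x ∈ A, Coll G (A.erase x)

/-- `IsDGraph G n A`: the subgraph induced on `A` is an `(n-1)`-graph. -/
def IsDGraph : ℕ → Finset V → Prop
  | 0, A => A = ∅
  | n + 1, A => ∀ x ∈ A, IsSphere G n (sph G A x)

/-- `IsVariety G n A`: the subgraph induced on `A` is an `(n-1)`-variety. -/
def IsVariety : ℕ → Finset V → Prop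
  | 0, A => A = ∅
  | n + 1, A => ∃ S : Finset V, S ⊆ A ∧ (∀ x ∈ S, ∀ y ∈ S, ¬ G.Adj x y) ∧
      (∀ x ∈ A, x ∉ S → IsDGraph G n (sph G A x)) ∧ ∀ x ∈ S, IsVariety n (sph G A x)

/-- The vertex sets of the (nonempty) complete subgraphs of `G`. -/
abbrev Face : Type := {s : Finset V // s.Nonempty ∧ G.IsClique (s : Set V)}

/-- The Barycentric refinement of `G`. -/
def bary : SimpleGraph (Face G) where
  Adj s t := s.1 ⊂ t.1 ∨ t.1 ⊂ s.1
  symm := ⟨fun _ _ h => h.symm⟩
  loopless := ⟨fun _ h => by rcases h with h | h <;> exact absurd h (lt_irrefl _)⟩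

/-- The number of complete subgraphs of the Barycentric refinement with `k + 1` vertices. -/
noncomputable def v (k : ℕ) : ℕ := ((bary G).cliqueSet (k + 1)).ncard

/-- The functional `η` (terms with `k` at least the number of faces vanish). -/
noncomputable def eta : ℤ :=
  ∑ k ∈ Finset.Icc 1 (Nat.card (Face G)), (-1 : ℤ) ^ (k + 1) * (k + 1) * (v G k : ℤ)

/-! ### Euler characteristic computations in `G` -/

variable {G}

open Classical in
noncomputable def M (A σ : Finset V) : ℤ :=
  ∑ τ ∈ A.powerset.filter (fun τ : Finset V => G.IsClique (τ : Set V) ∧ σ ⊆ τ), (-1 : ℤ) ^ τ.card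

lemma M_link {A σ : Finset V} {x : V} (hx : x ∈ σ) (hA : x ∈ A) :
    M (G := G) A σ = - M (G := G) (sph G A x) (σ.erase x) := by
  classical
  unfold M
  rw [← Finset.sum_neg_distrib]
  apply Finset.sum_nbij' (fun τ => τ.erase x) (fun τ => insert x τ)
  · intro τ hτ
    simp only [mem_filter, mem_powerset] at hτ ⊢
    obtain ⟨h1, h2, h3⟩ := hτ
    refine ⟨fun y hy => ?_, h2.subset (by simp), erase_subset_erase _ h3⟩
    rw [mem_erase] at hy
    exact mem_filter.2 ⟨h1 hy.2, h2 (h3 hx) hy.2 hy.1.symm⟩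
  · intro τ hτ
    simp only [mem_filter, mem_powerset] at hτ ⊢
    obtain ⟨h1, h2, h3⟩ := hτ
    refine ⟨insert_subset hA (fun y hy => (mem_filter.1 (h1 hy)).1), ?_, ?_⟩
    · rw [coe_insert]
      exact h2.insert (fun y hy _ => (mem_filter.1 (h1 hy)).2)
    · intro y hy
      by_cases h : y = x
      · simp [h]
      · exact mem_insert_of_mem (h3 (mem_erase.2 ⟨h, hy⟩))
  · intro τ hτ
    simp only [mem_filter, mem_powerset] at hτ
    exact insert_erase (hτ.2.2 hx)
  · intro τ hτ
    simp only [mem_filter, mem_powerset] at hτ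
    exact erase_insert (fun h => (mem_filter.1 (hτ.1 h)).2.ne rfl)
  · intro τ hτ
    simp only [mem_filter, mem_powerset] at hτ
    rw [← card_erase_add_one (hτ.2.2 hx), pow_succ]
    ring

lemma M_rec {A : Finset V} {x : V} (hA : x ∈ A) :
    M (G := G) A ∅ = M (G := G) (A.erase x) ∅ - M (G := G) (sph G A x) ∅ := by
  classical
  have h := M_link (G := G) (σ := {x}) (mem_singleton_self x) hA
  rw [erase_singleton] at h
  rw [sub_eq_add_neg, ← h]
  unfold M
  rw [← Finset.sum_filter_add_sum_filter_not _ (fun τ : Finset V => x ∈ τ), add_comm]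
  have e1 : (A.powerset.filter (fun τ : Finset V => G.IsClique (τ : Set V) ∧ ∅ ⊆ τ)).filter
      (fun τ : Finset V => ¬ x ∈ τ) = (A.erase x).powerset.filter
        (fun τ : Finset V => G.IsClique (τ : Set V) ∧ ∅ ⊆ τ) := by
    ext τ
    simp only [mem_filter, mem_powerset, subset_erase]
    tauto
  have e2 : (A.powerset.filter (fun τ : Finset V => G.IsClique (τ : Set V) ∧ ∅ ⊆ τ)).filter
      (fun τ : Finset V => x ∈ τ) = A.powerset.filter (fun τ : Finset V => G.IsClique (τ : Set V) ∧ {x} ⊆ τ) := by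
    ext τ
    simp only [mem_filter, mem_powerset, singleton_subset_iff, empty_subset]
    tauto
  rw [e1, e2]

lemma M_empty : M (G := G) ∅ ∅ = 1 := by
  classical
  unfold M
  rw [powerset_empty, filter_singleton, if_pos (by simp)]
  simp

lemma M_coll {A : Finset V} (h : Coll G A) : M (G := G) A ∅ = 0 := by
  induction h with
  | single x =>
    rw [M_rec (mem_singleton_self x), erase_singleton]
    have : sph G {x} x = ∅ := by
      ext y
      simp only [sph, mem_filter, mem_singleton, notMem_empty, iff_false, not_and]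
      rintro rfl
      exact G.irrefl
    rw [this, sub_self]
  | step A x hx _ _ ih1 ih2 => rw [M_rec hx, ih1, ih2, sub_self]

lemma sub_link {A σ : Finset V} {x : V} (hx : x ∈ σ) (hσ : σ ⊆ A) (hc : G.IsClique (σ : Set V)) :
    σ.erase x ⊆ sph G A x := fun y hy => by
  rw [mem_erase] at hy
  exact mem_filter.2 ⟨hσ hy.2, hc hx hy.2 hy.1.symm⟩

lemma M_sphere (n : ℕ) : ∀ A σ : Finset V, IsSphere G n A → σ ⊆ A → G.IsClique (σ : Set V) →
    M (G := G) A σ = (-1) ^ n := by
  induction n with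
  | zero =>
    intro A σ h hσ _
    obtain rfl : A = ∅ := h
    rw [subset_empty.1 hσ, M_empty, pow_zero]
  | succ n ih =>
    rintro A σ ⟨h1, x, hx, h2⟩ hσ hc
    rcases σ.eq_empty_or_nonempty with rfl | ⟨y, hy⟩
    · rw [M_rec hx, M_coll h2, ih _ _ (h1 x hx) (empty_subset _) hc, pow_succ]
      ring
    · rw [M_link hy (hσ hy), ih _ _ (h1 y (hσ hy)) (sub_link hy hσ hc) (hc.subset (by simp)),
        pow_succ]
      ring

lemma M_variety {n : ℕ} {A σ : Finset V} (h : IsVariety G n A) (hσ : σ ⊆ A)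
    (hc : G.IsClique (σ : Set V)) (h2 : 1 < σ.card) : M (G := G) A σ = (-1) ^ n := by
  obtain ⟨a, ha, b, hb, hab⟩ := one_lt_card.1 h2
  cases n with
  | zero =>
    obtain rfl : A = ∅ := h
    exact absurd (hσ ha) (notMem_empty _)
  | succ n =>
    obtain ⟨S, -, hS, hg, -⟩ := h
    obtain ⟨x, hx, y, hy, hxy, hxS⟩ : ∃ x ∈ σ, ∃ y ∈ σ, y ≠ x ∧ x ∉ S := by
      by_cases h1 : a ∈ S
      · exact ⟨b, hb, a, ha, hab, fun h3 => hS a h1 b h3 (hc ha hb hab)⟩
      · exact ⟨a, ha, b, hb, hab.symm, h1⟩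
    have h3 := hg x (hσ hx) hxS
    have h4 := sub_link hx hσ hc
    have h5 : y ∈ σ.erase x := mem_erase.2 ⟨hxy, hy⟩
    have h6 : G.IsClique ((σ.erase x : Finset V) : Set V) := hc.subset (by simp)
    cases n with
    | zero =>
      have h7 : sph G A x = ∅ := h3
      exact absurd (h7 ▸ h4 h5) (notMem_empty _)
    | succ n =>
      rw [M_link hx (hσ hx), M_link h5 (h4 h5),
        M_sphere n _ _ (h3 y (h4 h5)) (sub_link h5 h4 h6) (h6.subset (by simp)), pow_succ,
        pow_succ]
      ring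

lemma pw (r : ℤ) (τ : Finset V) : ∑ s ∈ τ.powerset, r ^ s.card = (1 + r) ^ τ.card := by
  have := Finset.prod_one_add (s := τ) (f := fun _ => r)
  simpa using this.symm

/-! ### Chains -/

open Classical in
noncomputable def ch (U : Finset (Face G)) : Finset (Finset (Face G)) :=
  U.powerset.filter (fun T => (bary G).IsClique (T : Set (Face G)))

open Classical in
lemma decomp (U : Finset (Face G)) (f : ℕ → ℤ) :
    ∑ T ∈ ch U, f T.card =
      f 0 + ∑ μ ∈ U, ∑ T ∈ ch (U.filter (fun s => s.1 ⊂ μ.1)), f (T.card + 1) := by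
  have h0 : (∅ : Finset (Face G)) ∈ ch U := by simp [ch]
  rw [← Finset.add_sum_erase _ _ h0, card_empty, Finset.sum_sigma']
  refine congrArg (fun z => f 0 + z) ?_
  symm
  have hn : ∀ p : (Σ _ : Face G, Finset (Face G)),
      p ∈ U.sigma (fun μ => ch (U.filter (fun s => s.1 ⊂ μ.1))) →
        p.1 ∈ U ∧ (∀ s ∈ p.2, s ∈ U ∧ s.1 ⊂ p.1.1) ∧ (bary G).IsClique (p.2 : Set (Face G)) := by
    intro p hp
    rw [mem_sigma, ch, mem_filter, mem_powerset] at hp
    exact ⟨hp.1, fun s hs => mem_filter.1 (hp.2.1 hs), hp.2.2⟩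
  apply Finset.sum_bij (fun p _ => insert p.1 p.2)
  · intro p hp
    obtain ⟨h1, h2, h3⟩ := hn p hp
    rw [mem_erase, ch, mem_filter, mem_powerset]
    refine ⟨insert_ne_empty _ _, insert_subset h1 (fun s hs => (h2 s hs).1), ?_⟩
    rw [coe_insert]
    exact h3.insert (fun s hs _ => Or.inr (h2 s hs).2)
  · rintro ⟨a, T⟩ hp ⟨b, T'⟩ hq e
    obtain ⟨-, h2, -⟩ := hn _ hp
    obtain ⟨-, h2', -⟩ := hn _ hq
    simp only at h2 h2' e
    have hab : a = b := by
      by_contra hne
      have ha : a ∈ T' := by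
        have : a ∈ insert b T' := e ▸ mem_insert_self a T
        exact (mem_insert.1 this).resolve_left hne
      have hb : b ∈ T := by
        have : b ∈ insert a T := e ▸ mem_insert_self b T'
        exact (mem_insert.1 this).resolve_left (Ne.symm hne)
      exact lt_asymm (h2' a ha).2 (h2 b hb).2
    subst hab
    have h3 : a ∉ T := fun h => lt_irrefl _ (h2 a h).2
    have h4 : a ∉ T' := fun h => lt_irrefl _ (h2' a h).2
    have : T = T' := by rw [← erase_insert h3, e, erase_insert h4]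
    rw [this]
  · intro T hT
    rw [mem_erase, ch, mem_filter, mem_powerset] at hT
    obtain ⟨h1, h2, h3⟩ := hT
    obtain ⟨μ, hμ, hm⟩ := T.exists_max_image (fun s => s.1.card) (nonempty_iff_ne_empty.2 h1)
    refine ⟨⟨μ, T.erase μ⟩, ?_, insert_erase hμ⟩
    rw [mem_sigma, ch, mem_filter, mem_powerset]
    refine ⟨h2 hμ, fun s hs => ?_, h3.subset (by simp)⟩
    rw [mem_erase] at hs
    refine mem_filter.2 ⟨h2 hs.2, ?_⟩
    rcases h3 hs.2 hμ hs.1 with h4 | h4
    · exact h4
    · exact absurd (hm s hs.2) (not_le.2 (card_lt_card h4))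
  · intro p hp
    obtain ⟨-, h2, -⟩ := hn p hp
    rw [card_insert_of_notMem (fun h => lt_irrefl _ (h2 _ h).2)]

open Classical in
noncomputable def below (τ : Face G) : Finset (Face G) := univ.filter (fun s => s.1 ⊂ τ.1)

open Classical in
lemma sum_below (τ : Face G) (g : Finset V → ℤ) :
    ∑ μ ∈ below τ, g μ.1 = ∑ s ∈ τ.1.powerset, g s - g ∅ - g τ.1 := by
  have h1 : (∅ : Finset V) ∈ τ.1.powerset := by simp
  have h2 : τ.1 ∈ τ.1.powerset.erase ∅ := by simp [τ.2.1.ne_empty]
  rw [← Finset.add_sum_erase _ _ h1, ← Finset.add_sum_erase _ _ h2]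
  have : ∑ μ ∈ below τ, g μ.1 = ∑ s ∈ (τ.1.powerset.erase ∅).erase τ.1, g s := by
    apply Finset.sum_bij (fun μ _ => μ.1)
    · intro μ hμ
      have h3 : μ.1 ⊂ τ.1 := (mem_filter.1 hμ).2
      simp only [mem_erase, mem_powerset]
      exact ⟨h3.ne, μ.2.1.ne_empty, h3.subset⟩
    · intro a _ b _ e
      exact Subtype.ext e
    · intro s hs
      simp only [mem_erase, mem_powerset] at hs
      exact ⟨⟨s, nonempty_iff_ne_empty.2 hs.2.1, τ.2.2.subset (by exact_mod_cast hs.2.2)⟩,
        mem_filter.2 ⟨mem_univ _, lt_of_le_of_ne hs.2.2 hs.1⟩, rfl⟩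
    · intro _ _
      rfl
  rw [this]
  ring

open Classical in
lemma below_filter {τ μ : Face G} (h : μ ∈ below τ) :
    (below τ).filter (fun s => s.1 ⊂ μ.1) = below μ := by
  ext s
  simp only [below, mem_filter, mem_univ, true_and] at h ⊢
  exact ⟨fun h1 => h1.2, fun h1 => ⟨lt_trans h1 h, h1⟩⟩

lemma shift (U : Finset (Face G)) :
    ∑ T ∈ ch U, (-1 : ℤ) ^ (T.card + 1) * ((T.card + 1 : ℕ) : ℤ) =
      - ∑ T ∈ ch U, (-1 : ℤ) ^ T.card * (T.card : ℤ) - ∑ T ∈ ch U, (-1 : ℤ) ^ T.card := by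
  rw [← Finset.sum_neg_distrib, ← Finset.sum_sub_distrib]
  apply Finset.sum_congr rfl
  intro T _
  push_cast
  ring

lemma chain_vals (m : ℕ) : ∀ τ : Face G, τ.1.card = m →
    ∑ T ∈ ch (below τ), (-1 : ℤ) ^ T.card = - (-1) ^ τ.1.card ∧
    ∑ T ∈ ch (below τ), (-1 : ℤ) ^ T.card * (T.card : ℤ) =
      2 * (-1) ^ τ.1.card - (-2) ^ τ.1.card := by
  induction m using Nat.strong_induction_on with
  | _ m ih =>
    intro τ hτ
    have hlt : ∀ μ ∈ below τ, μ.1.card < m := fun μ hμ => by
      classical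
      exact hτ ▸ card_lt_card (mem_filter.1 hμ).2
    have hpos : τ.1.card ≠ 0 := card_ne_zero.2 τ.2.1
    have p1 := pw (-1) τ.1
    have p2 := pw (-2) τ.1
    rw [show (1 : ℤ) + -1 = 0 by norm_num, zero_pow hpos] at p1
    rw [show (1 : ℤ) + -2 = -1 by norm_num] at p2
    constructor
    · rw [decomp (below τ) (fun k => (-1 : ℤ) ^ k)]
      have : ∀ μ ∈ below τ, ∑ T ∈ ch ((below τ).filter (fun s => s.1 ⊂ μ.1)),
          (-1 : ℤ) ^ (T.card + 1) = (-1) ^ μ.1.card := by
        intro μ hμ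
        rw [below_filter hμ]
        simp only [pow_succ]
        rw [← Finset.sum_mul, (ih _ (hlt μ hμ) μ rfl).1]
        ring
      rw [Finset.sum_congr rfl this, sum_below τ (fun s => (-1 : ℤ) ^ s.card), p1]
      simp only [card_empty, pow_zero]
      ring
    · rw [decomp (below τ) (fun k => (-1 : ℤ) ^ k * (k : ℤ))]
      have : ∀ μ ∈ below τ, ∑ T ∈ ch ((below τ).filter (fun s => s.1 ⊂ μ.1)),
          (-1 : ℤ) ^ (T.card + 1) * ((T.card + 1 : ℕ) : ℤ) =
            (-2) ^ μ.1.card - (-1) ^ μ.1.card := by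
        intro μ hμ
        rw [below_filter hμ, shift, (ih _ (hlt μ hμ) μ rfl).1, (ih _ (hlt μ hμ) μ rfl).2]
        ring
      rw [Finset.sum_congr rfl this,
        sum_below τ (fun s => (-2 : ℤ) ^ s.card - (-1 : ℤ) ^ s.card), Finset.sum_sub_distrib,
        p1, p2]
      simp only [card_empty, pow_zero, Nat.cast_zero]
      ring

open Classical in
lemma v_eq (k : ℕ) : v G k = ((ch (univ : Finset (Face G))).filter (fun T => T.card = k + 1)).card := by
  unfold v
  rw [← Set.ncard_coe_finset]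
  refine congrArg Set.ncard ?_
  ext T
  simp [ch, isNClique_iff]

open Classical in
lemma eta_eq : eta G = ∑ μ : Face G, (1 + (-2 : ℤ) ^ μ.1.card - (-1) ^ μ.1.card) := by
  have h1 : ∑ T ∈ ch (univ : Finset (Face G)), (-1 : ℤ) ^ T.card * (T.card : ℤ) =
      ∑ μ : Face G, ((-2 : ℤ) ^ μ.1.card - (-1) ^ μ.1.card) := by
    rw [decomp univ (fun k => (-1 : ℤ) ^ k * (k : ℤ))]
    simp only [Nat.cast_zero, mul_zero, zero_add]
    apply Finset.sum_congr rfl
    intro μ _
    have := chain_vals _ μ rfl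
    rw [show univ.filter (fun s : Face G => s.1 ⊂ μ.1) = below μ from rfl, shift, this.1, this.2]
    ring
  have h2 : ∑ T ∈ ch (univ : Finset (Face G)), (if T.card = 1 then (1 : ℤ) else 0) =
      ∑ _μ : Face G, (1 : ℤ) := by
    rw [decomp univ (fun k => if k = 1 then (1 : ℤ) else 0)]
    simp only [zero_ne_one, if_false, zero_add, Nat.add_eq_right, card_eq_zero]
    apply Finset.sum_congr rfl
    intro μ _
    rw [Finset.sum_ite_eq']
    simp [ch]
  have h3 : eta G = ∑ T ∈ ch (univ : Finset (Face G)),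
      ((if T.card = 1 then (1 : ℤ) else 0) + (-1 : ℤ) ^ T.card * (T.card : ℤ)) := by
    unfold eta
    simp only [v_eq, card_filter, Nat.cast_sum, Nat.cast_ite, Nat.cast_one, Nat.cast_zero,
      Finset.mul_sum]
    rw [Finset.sum_comm]
    apply Finset.sum_congr rfl
    intro T _
    have hT : T.card ≤ Nat.card (Face G) := by
      rw [Nat.card_eq_fintype_card]
      exact card_le_univ T
    rcases hc : T.card with _ | _ | j
    · simp
    · rw [Finset.sum_eq_zero]
      · simp
      · intro k hk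
        have := (mem_Icc.1 hk).1
        rw [if_neg (by omega), mul_zero]
    · rw [Finset.sum_eq_single (j + 1)]
      · simp
      · intro k _ hk
        rw [if_neg (by omega), mul_zero]
      · intro hk
        exact absurd (mem_Icc.2 ⟨by omega, by omega⟩) hk
  rw [h3, Finset.sum_add_distrib, h1, h2, ← Finset.sum_add_distrib]
  apply Finset.sum_congr rfl
  intro μ _
  ring

open Classical in
lemma M_face (σ : Face G) : M (G := G) univ σ.1 =
    ∑ τ : Face G, if σ.1 ⊆ τ.1 then (-1 : ℤ) ^ τ.1.card else 0 := by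
  unfold M
  rw [← Finset.sum_filter]
  symm
  apply Finset.sum_bij (fun τ _ => τ.1)
  · intro τ hτ
    simp only [mem_filter, mem_powerset, subset_univ, true_and, mem_univ] at hτ ⊢
    exact ⟨τ.2.2, hτ⟩
  · intro a _ b _ e
    exact Subtype.ext e
  · intro s hs
    simp only [mem_filter, mem_powerset, subset_univ, true_and] at hs
    exact ⟨⟨s, σ.2.1.mono hs.2, hs.1⟩, mem_filter.2 ⟨mem_univ _, hs.2⟩, rfl⟩
  · intro _ _
    rfl

open Classical in
lemma two_pow (τ : Face G) : (2 : ℤ) ^ τ.1.card =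
    2 + ∑ σ : Face G, if σ.1 ⊆ τ.1 then (1 + (-1 : ℤ) ^ σ.1.card) else 0 := by
  have h1 := sum_below τ (fun s => 1 ^ s.card + (-1 : ℤ) ^ s.card)
  have hpos : τ.1.card ≠ 0 := card_ne_zero.2 τ.2.1
  rw [Finset.sum_add_distrib (s := τ.1.powerset), pw, pw] at h1
  rw [show (1 : ℤ) + -1 = 0 by norm_num, zero_pow hpos] at h1
  rw [← Finset.sum_filter]
  have h2 : univ.filter (fun σ : Face G => σ.1 ⊆ τ.1) = insert τ (below τ) := by
    ext s
    simp only [below, mem_filter, mem_univ, true_and, mem_insert]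
    constructor
    · intro h
      by_cases e : s = τ
      · exact Or.inl e
      · exact Or.inr (lt_of_le_of_ne h (fun e' => e (Subtype.ext e')))
    · rintro (rfl | h)
      · exact Subset.rfl
      · exact h.subset
  have h3 : τ ∉ below τ := fun h => lt_irrefl _ (mem_filter.1 h).2
  rw [h2, Finset.sum_insert h3]
  simp only [one_pow, card_empty, pow_zero] at h1
  rw [h1]
  ring

theorem result {V : Type} [Fintype V] [DecidableEq V] (G : SimpleGraph V) [DecidableRel G.Adj]
    (d : ℕ) (h : IsVariety G (d + 1) univ) : 0 ≤ eta G := by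
  classical
  have h1 : ∀ σ : Face G, (1 + (-1 : ℤ) ^ σ.1.card) * M (G := G) univ σ.1 =
      (1 + (-1 : ℤ) ^ σ.1.card) * (-1) ^ (d + 1) := by
    intro σ
    by_cases h2 : 1 < σ.1.card
    · rw [M_variety h (subset_univ _) σ.2.2 h2]
    · have : σ.1.card = 1 := by have := card_pos.2 σ.2.1; omega
      simp [this]
  have h2 : ∑ τ : Face G, (-2 : ℤ) ^ τ.1.card = ∑ τ : Face G, 2 * (-1 : ℤ) ^ τ.1.card +
      ∑ σ : Face G, (1 + (-1 : ℤ) ^ σ.1.card) * (-1) ^ (d + 1) := by
    simp only [← h1, M_face, Finset.mul_sum]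
    rw [Finset.sum_comm, ← Finset.sum_add_distrib]
    apply Finset.sum_congr rfl
    intro τ _
    rw [show (-2 : ℤ) = 2 * -1 by norm_num, mul_pow, two_pow τ, add_mul, Finset.sum_mul]
    refine congrArg (fun z => 2 * (-1 : ℤ) ^ τ.1.card + z) ?_
    apply Finset.sum_congr rfl
    intro σ _
    split_ifs <;> simp
  have h3 : eta G = ∑ σ : Face G, (1 + (-1 : ℤ) ^ σ.1.card) * (1 + (-1) ^ (d + 1)) := by
    rw [eta_eq, Finset.sum_sub_distrib, Finset.sum_add_distrib, h2, ← Finset.sum_add_distrib,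
      ← Finset.sum_add_distrib, ← Finset.sum_sub_distrib]
    apply Finset.sum_congr rfl
    intro σ _
    ring
  rw [h3]
  apply Finset.sum_nonneg
  intro σ _
  have key : ∀ k : ℕ, 0 ≤ 1 + (-1 : ℤ) ^ k := fun k => by
    rcases neg_one_pow_eq_or ℤ k with h | h <;> rw [h] <;> norm_num
  exact mul_nonneg (key _) (key _)

end Pool.Agent.Results.MP_165839_co.EtaNonneg
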